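import Pool.Agent.MP_26cd3b_lc.H27.Defs
import Pool.Agent.MP_26cd3b_lc.H27.Real

/-! Treetope graphs in terms of vector configurations. -/

namespace Pool.Agent.MP_26cd3b_lc.H30

open Pool.Agent.MP_26cd3b_lc.H27 Submodule Set Module

section
variable {k : ℕ} {V : Type} [Fintype V] {p : V → Fin k → ℝ} {φ : (ℝ × (Fin k → ℝ)) →ₗ[ℝ] ℝ}

theorem lift_comb (φ : (ℝ × (Fin k → ℝ)) →ₗ[ℝ] ℝ) (x z : Fin k → ℝ) {a b : ℝ} (h : a + b = 1) :
    φ (1, a • x + b • z) = a * φ (1, x) + b * φ (1, z) := by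
  rw [← smul_eq_mul, ← smul_eq_mul, ← map_smul, ← map_smul, ← map_add]
  simp [h]

theorem hull_valid (h : Valid Finset.univ (fun a => ((1 : ℝ), p a)) φ) :
    ∀ x ∈ convexHull ℝ (range p), 0 ≤ φ (1, x) ∧
      (φ (1, x) = 0 → x ∈ convexHull ℝ (p '' {a | φ (1, p a) = 0})) := by
  refine convexHull_min ?_ ?_
  · rintro _ ⟨a, rfl⟩
    exact ⟨h a (Finset.mem_univ a), fun h0 => subset_convexHull _ _ ⟨a, h0, rfl⟩⟩
  · rintro x ⟨h1, h2⟩ z ⟨h3, h4⟩ a b ha hb hab
    refine ⟨by rw [lift_comb φ x z hab]; positivity, fun h0 => ?_⟩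
    rw [lift_comb φ x z hab, add_eq_zero_iff_of_nonneg (by positivity) (by positivity), mul_eq_zero, mul_eq_zero] at h0
    rcases h0 with ⟨rfl | h5, rfl | h6⟩
    · simp at hab
    · simpa [show b = 1 by linarith] using h4 h6
    · simpa [show a = 1 by linarith] using h2 h5
    · exact convex_convexHull _ _ (h2 h5) (h4 h6) ha hb hab

theorem face_eq (h : Valid Finset.univ (fun a => ((1 : ℝ), p a)) φ) :
    {x ∈ convexHull ℝ (range p) | φ (1, x) = 0} = convexHull ℝ (p '' {a | φ (1, p a) = 0}) := by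
  refine Subset.antisymm (fun x hx => (hull_valid h x hx.1).2 hx.2) (convexHull_min ?_ ?_)
  · rintro _ ⟨a, ha, rfl⟩
    exact ⟨subset_convexHull _ _ ⟨a, rfl⟩, ha⟩
  · rintro x hx z hz a b ha hb hab
    exact ⟨convex_convexHull _ _ hx.1 hz.1 ha hb hab, by rw [lift_comb φ x z hab, hx.2, hz.2]; simp⟩

theorem exposed_of_valid (h : Valid Finset.univ (fun a => ((1 : ℝ), p a)) φ) :
    IsExposed ℝ (convexHull ℝ (range p)) {x ∈ convexHull ℝ (range p) | φ (1, x) = 0} := by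
  rintro ⟨z, hz, hz0⟩
  have h1 : ∀ x, φ (0, x) = φ (1, x) - φ (1, 0) := fun x => by
    rw [← map_sub]
    simp
  refine ⟨LinearMap.toContinuousLinearMap (-(φ ∘ₗ LinearMap.inr ℝ ℝ (Fin k → ℝ))), ?_⟩
  ext x
  refine and_congr_right fun hx => ⟨fun h0 y hy => ?_, fun h0 => ?_⟩
  · have := (hull_valid h y hy).1
    simp only [LinearMap.coe_toContinuousLinearMap', LinearMap.neg_apply, LinearMap.comp_apply,
      LinearMap.inr_apply, h1]
    linarith
  · have h2 := h0 z hz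
    have := (hull_valid h x hx).1
    simp only [LinearMap.coe_toContinuousLinearMap', LinearMap.neg_apply, LinearMap.comp_apply,
      LinearMap.inr_apply, h1] at h2
    linarith

theorem valid_of_exposed {Q : Set (Fin k → ℝ)} (h : IsExposed ℝ (convexHull ℝ (range p)) Q)
    (hQ : Q.Nonempty) : ∃ φ : (ℝ × (Fin k → ℝ)) →ₗ[ℝ] ℝ,
      Valid Finset.univ (fun a => ((1 : ℝ), p a)) φ ∧
        Q = {x ∈ convexHull ℝ (range p) | φ (1, x) = 0} := by
  obtain ⟨l, rfl⟩ := h hQ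
  obtain ⟨z, hz, hz'⟩ := hQ
  refine ⟨l z • LinearMap.fst ℝ ℝ _ - l.toLinearMap ∘ₗ LinearMap.snd ℝ ℝ _, fun a _ => ?_, ?_⟩
  · simpa using hz' _ (subset_convexHull _ _ ⟨a, rfl⟩)
  · ext x
    refine and_congr_right fun hx => ?_
    simp only [LinearMap.sub_apply, LinearMap.smul_apply, LinearMap.fst_apply, smul_eq_mul,
      mul_one, LinearMap.comp_apply, LinearMap.snd_apply, ContinuousLinearMap.coe_coe, sub_eq_zero]
    exact ⟨fun h0 => le_antisymm (h0 z hz) (hz' x hx), fun h0 y hy => h0 ▸ hz' y hy⟩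

omit [Fintype V] in
theorem dim_hull {S : Set V} (hS : S.Nonempty) : dim (convexHull ℝ (p '' S)) + 1 =
    finrank ℝ (span ℝ ((fun a => ((1 : ℝ), p a)) '' S)) := by
  obtain ⟨a, ha⟩ := hS
  have h1 : span ℝ ((fun a => ((1 : ℝ), p a)) '' S) =
      (vectorSpan ℝ (p '' S)).map (LinearMap.inr ℝ ℝ _) ⊔ span ℝ {((1 : ℝ), p a)} := by
    rw [vectorSpan_eq_span_vsub_set_right ℝ (mem_image_of_mem p ha), map_span]
    refine le_antisymm (span_le.2 ?_) (sup_le (span_le.2 ?_) (span_mono ?_))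
    · rintro _ ⟨b, hb, rfl⟩
      refine mem_sup.2 ⟨(0, p b - p a), subset_span ⟨_, ⟨_, ⟨b, hb, rfl⟩, rfl⟩, rfl⟩, _,
        subset_span rfl, by simp⟩
    · rintro _ ⟨_, ⟨_, ⟨b, hb, rfl⟩, rfl⟩, rfl⟩
      have := sub_mem (subset_span (R := ℝ) (mem_image_of_mem (fun a => ((1 : ℝ), p a)) hb))
        (subset_span (mem_image_of_mem (fun a => ((1 : ℝ), p a)) ha))
      simpa using this
    · rintro _ rfl
      exact ⟨a, ha, rfl⟩
  rw [h1, finrank_sup_span_singleton (by simp),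
    ← (Submodule.equivMapOfInjective _ LinearMap.inr_injective _).finrank_eq, dim,
    ← direction_affineSpan, affineSpan_convexHull, direction_affineSpan]

theorem rank_pair (hv : Vx Finset.univ fun a => ((1 : ℝ), p a)) {a b : V} (hab : a ≠ b) :
    finrank ℝ (span ℝ {((1 : ℝ), p a), ((1 : ℝ), p b)}) = 2 := by
  rw [span_insert, sup_comm, finrank_sup_span_singleton
    (hv.pair (Finset.mem_univ b) (Finset.mem_univ a) hab), finrank_span_singleton (by simp)]

theorem three_iff (hv : Vx Finset.univ fun a => ((1 : ℝ), p a)) :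
    Three Finset.univ (fun a => ((1 : ℝ), p a)) φ ↔
      3 ≤ finrank ℝ (span ℝ ((fun a => ((1 : ℝ), p a)) '' {a | φ (1, p a) = 0})) := by
  classical
  constructor
  · rintro ⟨a, ha, b, hb, c, hc, h1, h2, h3, h4, h5, h6⟩
    have := finrank_sup_span_singleton (hv.tri ha hb hc h1 h2.symm h3.symm)
    rw [rank_pair hv h1] at this
    refine this.ge.trans (Submodule.finrank_mono (sup_le (span_mono ?_) (span_mono ?_)))
    · rintro _ (rfl | rfl)
      exacts [⟨a, h4, rfl⟩, ⟨b, h5, rfl⟩]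
    · rintro _ rfl
      exact ⟨c, h6, rfl⟩
  · intro h
    have h1 := h.trans (finrank_span_le_card _)
    rw [toFinset_image] at h1
    replace h1 := h1.trans Finset.card_image_le
    obtain ⟨a, b, c, h2, h3, h4, h5, h6, h7⟩ := Finset.two_lt_card_iff.1 h1
    exact ⟨a, Finset.mem_univ _, b, Finset.mem_univ _, c, Finset.mem_univ _, h5, h6, h7,
      by simpa using h2, by simpa using h3, by simpa using h4⟩

theorem vx_inj (hv : Vx Finset.univ fun a => ((1 : ℝ), p a)) : Function.Injective p :=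
  fun a b h => by
    by_contra hne
    exact hv.pair (Finset.mem_univ b) (Finset.mem_univ a) hne (h ▸ subset_span rfl)

theorem zeros_nonempty (h : Valid Finset.univ (fun a => ((1 : ℝ), p a)) φ)
    (hQ : {x ∈ convexHull ℝ (range p) | φ (1, x) = 0}.Nonempty) :
    {a | φ (1, p a) = 0}.Nonempty := by
  rwa [face_eq h, convexHull_nonempty_iff, image_nonempty] at hQ

theorem adj_iff (hv : Vx Finset.univ fun a => ((1 : ℝ), p a)) {a b : V} :
    (a ≠ b ∧ ∃ Q, IsExposed ℝ (convexHull ℝ (range p)) Q ∧ dim Q = 1 ∧ p a ∈ Q ∧ p b ∈ Q) ↔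
      Ed Finset.univ (fun a => ((1 : ℝ), p a)) a b := by
  constructor
  · rintro ⟨hab, Q, h1, h2, h3, h4⟩
    obtain ⟨φ, h5, rfl⟩ := valid_of_exposed h1 ⟨_, h3⟩
    have h6 := dim_hull (p := p) (S := {a | φ (1, p a) = 0}) ⟨a, h3.2⟩
    rw [← face_eq h5, h2] at h6
    refine ⟨Finset.mem_univ _, Finset.mem_univ _, hab, h5.face.congr fun c hc => ⟨fun h => ?_, ?_⟩⟩
    · by_contra h7
      simp only [mem_insert_iff, mem_singleton_iff, not_or] at h7
      have := (three_iff hv).1 ⟨a, Finset.mem_univ _, b, Finset.mem_univ _, c, hc, hab,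
        Ne.symm h7.1, Ne.symm h7.2, h3.2, h4.2, h⟩
      omega
    · rintro (rfl | rfl)
      exacts [h3.2, h4.2]
  · rintro ⟨-, -, hab, φ, h⟩
    have h1 : Valid Finset.univ (fun a => ((1 : ℝ), p a)) φ := fun c hc => (h c hc).1
    have h2 : {a | φ (1, p a) = 0} = {a, b} := Set.ext fun c => (h c (Finset.mem_univ c)).2
    have h3 := dim_hull (p := p) (S := {a, b}) (insert_nonempty _ _)
    rw [image_pair (fun a => ((1 : ℝ), p a)), rank_pair hv hab, ← h2, ← face_eq h1] at h3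
    exact ⟨hab, _, exposed_of_valid h1, by omega,
      ⟨subset_convexHull _ _ ⟨a, rfl⟩, (h a (Finset.mem_univ _)).2.2 (by simp)⟩,
      ⟨subset_convexHull _ _ ⟨b, rfl⟩, (h b (Finset.mem_univ _)).2.2 (by simp)⟩⟩

theorem cn_hull {A : Set (Fin k → ℝ)} {v : ℝ × (Fin k → ℝ)}
    (h : Cn ⊥ ((fun x => ((1 : ℝ), x)) '' A) v) :
    v = 0 ∨ ∃ t : ℝ, 0 < t ∧ ∃ x ∈ convexHull ℝ A, v = t • ((1 : ℝ), x) := by
  induction h with
  | base hu => exact Or.inl hu
  | @add c a w hc ha _ ih =>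
    obtain ⟨z, hz, rfl⟩ := ha
    rcases hc.eq_or_lt with rfl | hc
    · simpa using ih
    rcases ih with rfl | ⟨t, ht, x, hx, rfl⟩
    · exact Or.inr ⟨c, hc, z, subset_convexHull _ _ hz, add_zero _⟩
    · refine Or.inr ⟨c + t, by positivity, (c / (c + t)) • z + (t / (c + t)) • x,
        convex_convexHull _ _ (subset_convexHull _ _ hz) hx (by positivity) (by positivity)
          (by field_simp), ?_⟩
      have : c + t ≠ 0 := by positivity
      simp [smul_smul, mul_div_cancel₀ _ this]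

theorem hull_exposed (p : V → Fin k → ℝ) : convexHull ℝ (range p) =
    convexHull ℝ {x | IsExposed ℝ (convexHull ℝ (range p)) {x}} := by
  refine Subset.antisymm (convexHull_min ?_ (convex_convexHull _ _))
    (convexHull_min (fun x hx => IsExposed.subset hx rfl) (convex_convexHull _ _))
  rintro _ ⟨b, rfl⟩
  have h1 := tangent (s := Finset.univ) (y := fun a => ((1 : ℝ), p a)) (θ := LinearMap.fst ℝ ℝ _)
    (fun a _ => zero_le_one) b (Finset.mem_univ b)
  have h2 : {c : V | c ∈ Finset.univ ∧ LinearMap.fst ℝ ℝ (Fin k → ℝ) ((1 : ℝ), p c) = 0} = ∅ := by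
    simp
  rw [h2, image_empty, span_empty] at h1
  rcases cn_hull (A := {x | IsExposed ℝ (convexHull ℝ (range p)) {x}}) (h1.mono (by
    rintro _ ⟨a, ⟨-, -, φ, h3, -, h4, h5⟩, rfl⟩
    refine ⟨p a, ?_, rfl⟩
    have h6 : p '' {a | φ (1, p a) = 0} = {p a} := by
      refine eq_singleton_iff_unique_mem.2 ⟨⟨a, h4, rfl⟩, ?_⟩
      rintro _ ⟨c, hc, rfl⟩
      have := h5 c (Finset.mem_univ c) hc
      rw [h2, image_empty, insert_empty_eq] at this
      obtain ⟨t, ht⟩ := mem_span_singleton.1 this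
      obtain rfl : t = 1 := by simpa using congrArg Prod.fst ht
      simpa using ht.symm
    have h7 := exposed_of_valid h3
    rwa [face_eq h3, h6, convexHull_singleton] at h7)) with h | ⟨t, -, x, hx, h⟩
  · simp at h
  · obtain rfl : t = 1 := by simpa using (congrArg Prod.fst h).symm
    obtain rfl : p b = x := by simpa using h
    exact hx

end

theorem bridge (k : ℕ) (hk : 2 ≤ k) {V : Type} [Fintype V] (G : SimpleGraph V) :
    IsTreetopeGraph k G ↔ ∃ (p : V → Fin k → ℝ) (ν : (ℝ × (Fin k → ℝ)) →ₗ[ℝ] ℝ),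
      Tp Finset.univ (fun a => ((1 : ℝ), p a)) ν ∧
        ∀ a b, G.Adj a b ↔ Ed Finset.univ (fun a => ((1 : ℝ), p a)) a b := by
  classical
  have hr : finrank ℝ (ℝ × (Fin k → ℝ)) = k + 1 := by simp [add_comm]
  constructor
  · rintro ⟨P, F, ⟨⟨s, hs⟩, h1, h2, h3, h4⟩, ⟨i⟩⟩
    obtain ⟨p, hp⟩ : ∃ p : V → Fin k → ℝ, ∀ v, p v = (i v).1 := ⟨_, fun _ => rfl⟩
    have hinj : Function.Injective p := fun a b h =>
      i.injective (Subtype.ext ((hp a).symm.trans (h.trans (hp b))))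
    have hP : P = convexHull ℝ (range p) := by
      have h5 := hull_exposed (Subtype.val : s → Fin k → ℝ)
      rw [Subtype.range_coe_subtype, Finset.setOfPred_mem, ← hs] at h5
      rw [h5]
      congr 1
      ext x
      exact ⟨fun hx => ⟨i.symm ⟨x, hx⟩, by simp [hp]⟩, by rintro ⟨v, rfl⟩; exact hp v ▸ (i v).2⟩
    have hi : ∀ v, IsExposed ℝ P {p v} := fun v => hp v ▸ (i v).2
    have hadj : ∀ a b, G.Adj a b ↔ a ≠ b ∧ ∃ Q, IsExposed ℝ P Q ∧ dim Q = 1 ∧ p a ∈ Q ∧ p b ∈ Q :=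
      fun a b => by
        rw [← i.map_rel_iff, hp, hp, ← i.injective.ne_iff]
        rfl
    clear hp i hs
    subst hP
    have hv : Vx Finset.univ fun a => ((1 : ℝ), p a) := fun a _ => by
      obtain ⟨φ, h5, h6⟩ := valid_of_exposed (hi a) (singleton_nonempty _)
      refine h5.face.congr fun c _ => ?_
      have := Set.ext_iff.1 h6 (p c)
      simp only [mem_singleton_iff, hinj.eq_iff, mem_ofPred_eq,
        subset_convexHull ℝ _ (mem_range_self c), true_and] at this ⊢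
      exact this.symm
    have hF : F.Nonempty := by
      rcases F.eq_empty_or_nonempty with rfl | h
      · rw [dim, vectorSpan_empty, finrank_bot] at h3
        omega
      · exact h
    obtain ⟨ν, h5, rfl⟩ := valid_of_exposed h2 hF
    obtain ⟨a, ha⟩ := zeros_nonempty h5 hF
    refine ⟨p, ν, ⟨hv, h5, fun φ h6 h7 => ?_, ?_, ⟨a, Finset.mem_univ _, ha⟩, ?_⟩,
      fun a b => (hadj a b).trans (adj_iff hv)⟩
    · have h8 := (three_iff hv).1 h7
      obtain ⟨c, -, -, -, -, -, -, -, -, hc, -⟩ := h7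
      rw [← dim_hull ⟨c, hc⟩, ← face_eq h6] at h8
      have h9 := h4 _ (exposed_of_valid h6) (by omega)
      have h10 : Valid Finset.univ (fun a => ((1 : ℝ), p a)) (φ + ν) := fun c hc =>
        add_nonneg (h6 c hc) (h5 c hc)
      have h11 : (convexHull ℝ (p '' {a | (φ + ν) (1, p a) = 0})).Nontrivial := by
        rw [← face_eq h10]
        exact h9.mono fun x hx => ⟨hx.1.1, by rw [LinearMap.add_apply, hx.1.2, hx.2.2, add_zero]⟩
      obtain ⟨a, ha, b, hb, hab⟩ : {a | (φ + ν) (1, p a) = 0}.Nontrivial := by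
        by_contra h12
        have h13 := (not_nontrivial_iff.1 h12).image p
        rw [h13.convex.convexHull_eq] at h11
        exact h11.not_subsingleton h13
      have ha' := (add_eq_zero_iff_of_nonneg (h6 a (Finset.mem_univ _))
        (h5 a (Finset.mem_univ _))).1 ha
      have hb' := (add_eq_zero_iff_of_nonneg (h6 b (Finset.mem_univ _))
        (h5 b (Finset.mem_univ _))).1 hb
      exact ⟨a, Finset.mem_univ _, b, Finset.mem_univ _, hab, ha'.1, hb'.1, ha'.2, hb'.2⟩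
    · refine Submodule.eq_top_of_finrank_eq ?_
      rw [Finset.coe_univ, ← dim_hull ⟨a, mem_univ a⟩, image_univ, h1, hr]
    · by_contra! h6
      have h7 : {a | ν (1, p a) = 0} = univ := eq_univ_of_forall fun c =>
        le_antisymm (h6 c (Finset.mem_univ c)) (h5 c (Finset.mem_univ c))
      rw [face_eq h5, h7, image_univ] at h3
      omega
  · rintro ⟨p, ν, h, hadj⟩
    obtain ⟨a, -, ha⟩ := h.hb
    have hex : ∀ v, IsExposed ℝ (convexHull ℝ (range p)) {p v} := fun v => by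
      obtain ⟨φ, h1⟩ := h.vx v (Finset.mem_univ v)
      have h2 : Valid Finset.univ (fun a => ((1 : ℝ), p a)) φ := fun c hc => (h1 c hc).1
      have h3 : {a | φ (1, p a) = 0} = {v} := Set.ext fun c => (h1 c (Finset.mem_univ c)).2
      have h4 := exposed_of_valid h2
      rwa [face_eq h2, h3, image_singleton, convexHull_singleton] at h4
    refine ⟨convexHull ℝ (range p), _, ⟨⟨Finset.univ.image p, by simp⟩, ?_, exposed_of_valid h.nu,
      ?_, fun Q h1 h2 => ?_⟩, ⟨⟨Equiv.ofBijective (fun v => ⟨p v, hex v⟩)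
        ⟨fun a b e => vx_inj h.vx (congrArg Subtype.val e), ?_⟩, fun {a b} => ?_⟩⟩⟩
    · have h1 := dim_hull (p := p) (S := univ) ⟨a, trivial⟩
      rw [← Finset.coe_univ, h.sp, finrank_top, hr, Finset.coe_univ, image_univ] at h1
      omega
    · have h1 := h.base_rank
      rw [show {a | a ∈ Finset.univ ∧ ν (1, p a) = 0} = {a | ν (1, p a) = 0} by simp,
        ← dim_hull ⟨a, ha⟩, ← face_eq h.nu, hr] at h1
      omega
    · have hQ : Q.Nonempty := by
        rcases Q.eq_empty_or_nonempty with rfl | h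
        · rw [dim, vectorSpan_empty, finrank_bot] at h2
          omega
        · exact h
      obtain ⟨φ, h3, rfl⟩ := valid_of_exposed h1 hQ
      have h4 := dim_hull (p := p) (zeros_nonempty h3 hQ)
      rw [← face_eq h3] at h4
      obtain ⟨b, -, c, -, h5, h6, h7, h8, h9⟩ := h.tp φ h3 ((three_iff h.vx).2 (by omega))
      have h10 := fun v => subset_convexHull ℝ (range p) (mem_range_self v)
      exact ⟨p b, ⟨⟨h10 b, h8⟩, h10 b, h6⟩, p c, ⟨⟨h10 c, h9⟩, h10 c, h7⟩, (vx_inj h.vx).ne h5⟩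
    · rintro ⟨x, hx⟩
      obtain ⟨φ, h1, h2⟩ := valid_of_exposed hx (singleton_nonempty _)
      obtain ⟨v, hv⟩ := zeros_nonempty h1 (h2 ▸ singleton_nonempty _)
      exact ⟨v, Subtype.ext (show p v ∈ ({x} : Set _) from
        h2 ▸ ⟨subset_convexHull _ _ ⟨v, rfl⟩, hv⟩)⟩
    · rw [hadj, ← adj_iff h.vx, ← (vx_inj h.vx).ne_iff]
      exact and_congr_left fun _ => Subtype.coe_ne_coe.symm

section Transport
variable {V ι E E' : Type} [Fintype V] [AddCommGroup E] [Module ℝ E] [AddCommGroup E']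
  [Module ℝ E'] {s : Finset ι} {e : V → ι} {y : ι → E} {y' : V → E'} {T : E ≃ₗ[ℝ] E'} {c : V → ℝ}

theorem face_transport (hs : ∀ a, a ∈ s ↔ ∃ v, e v = a) (hc : ∀ v, 0 < c v)
    (hy : ∀ v, y' v = c v • T (y (e v))) (S : Set ι) :
    Face s y S ↔ Face Finset.univ y' (e ⁻¹' S) := by
  constructor
  · rintro ⟨φ, h⟩
    refine ⟨φ ∘ₗ T.symm.toLinearMap, fun v _ => ?_⟩
    simpa [hy, (hc v).ne', mul_nonneg_iff_of_pos_left (hc v)] using h (e v) ((hs _).2 ⟨v, rfl⟩)
  · rintro ⟨φ, h⟩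
    refine ⟨φ ∘ₗ T.toLinearMap, fun a ha => ?_⟩
    obtain ⟨v, rfl⟩ := (hs a).1 ha
    simpa [hy, (hc v).ne', mul_nonneg_iff_of_pos_left (hc v)] using h v (Finset.mem_univ v)

theorem ed_transport (he : Function.Injective e) (hs : ∀ a, a ∈ s ↔ ∃ v, e v = a)
    (hc : ∀ v, 0 < c v) (hy : ∀ v, y' v = c v • T (y (e v))) (a b : V) :
    Ed s y (e a) (e b) ↔ Ed Finset.univ y' a b := by
  have : e ⁻¹' {e a, e b} = {a, b} := by
    ext v
    simp [he.eq_iff]
  simp only [Ed, face_transport hs hc hy, this, he.ne_iff, Finset.mem_univ, (hs _).2 ⟨a, rfl⟩,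
    (hs _).2 ⟨b, rfl⟩]

theorem tp_transport (he : Function.Injective e) (hs : ∀ a, a ∈ s ↔ ∃ v, e v = a)
    (hc : ∀ v, 0 < c v) (hy : ∀ v, y' v = c v • T (y (e v))) (ν : E' →ₗ[ℝ] ℝ) :
    Tp s y (ν ∘ₗ T.toLinearMap) ↔ Tp Finset.univ y' ν := by
  have h0 : ∀ (φ : E' →ₗ[ℝ] ℝ) v, φ (y' v) = 0 ↔ φ (T (y (e v))) = 0 := fun φ v => by
    simp [hy, (hc v).ne']
  have h1 : ∀ (φ : E' →ₗ[ℝ] ℝ) v, 0 ≤ φ (y' v) ↔ 0 ≤ φ (T (y (e v))) := fun φ v => by
    simp [hy, mul_nonneg_iff_of_pos_left (hc v)]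
  have h2 : ∀ (φ : E' →ₗ[ℝ] ℝ) v, 0 < φ (y' v) ↔ 0 < φ (T (y (e v))) := fun φ v => by
    simp [hy, mul_pos_iff_of_pos_left (hc v)]
  have h3 : ∀ q : ι → Prop, (∀ a ∈ s, q a) ↔ ∀ v, q (e v) := fun q => by simp [hs]
  have h4 : ∀ q : ι → Prop, (∃ a ∈ s, q a) ↔ ∃ v, q (e v) := fun q => by simp [hs]
  have h5 : ∀ v, e ⁻¹' {e v} = {v} := fun v => by
    ext w
    simp [he.eq_iff]
  have hvx : Vx s y ↔ Vx Finset.univ y' := by
    simp only [Vx, h3, face_transport hs hc hy, h5, Finset.mem_univ, forall_true_left]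
  have hva : ∀ φ : E' →ₗ[ℝ] ℝ, Valid s y (φ ∘ₗ T.toLinearMap) ↔ Valid Finset.univ y' φ :=
    fun φ => by simp [Valid, h3, h1]
  have hth : ∀ φ : E' →ₗ[ℝ] ℝ, Three s y (φ ∘ₗ T.toLinearMap) ↔ Three Finset.univ y' φ :=
    fun φ => by simp [Three, h4, h0, he.eq_iff]
  have hsp : span ℝ (y' '' (Finset.univ : Finset V)) = (span ℝ (y '' s)).map T.toLinearMap := by
    rw [map_span]
    refine le_antisymm (span_le.2 ?_) (span_le.2 ?_)
    · rintro _ ⟨v, -, rfl⟩
      exact hy v ▸ smul_mem _ _ (subset_span ⟨_, ⟨e v, (hs _).2 ⟨v, rfl⟩, rfl⟩, rfl⟩)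
    · rintro _ ⟨_, ⟨a, ha, rfl⟩, rfl⟩
      obtain ⟨v, rfl⟩ := (hs a).1 ha
      have := smul_mem (span ℝ (y' '' (Finset.univ : Finset V))) (c v)⁻¹
        (subset_span ⟨v, Finset.mem_univ v, rfl⟩)
      rwa [hy, smul_smul, inv_mul_cancel₀ (hc v).ne', one_smul] at this
  constructor
  · rintro ⟨g1, g2, g3, g4, g5, g6⟩
    refine ⟨hvx.1 g1, (hva ν).1 g2, fun φ k1 k2 => ?_, by rw [hsp, g4]; simp, ?_, ?_⟩
    · simpa [h4, h0, he.eq_iff] using g3 _ ((hva φ).2 k1) ((hth φ).2 k2)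
    · simpa [h4, h0] using g5
    · simpa [h4, h2] using g6
  · rintro ⟨g1, g2, g3, g4, g5, g6⟩
    refine ⟨hvx.2 g1, (hva ν).2 g2, fun φ k1 k2 => ?_, ?_, ?_, ?_⟩
    · obtain ⟨ψ, rfl⟩ : ∃ ψ : E' →ₗ[ℝ] ℝ, φ = ψ ∘ₗ T.toLinearMap :=
        ⟨φ ∘ₗ T.symm.toLinearMap, by ext; simp⟩
      simpa [h4, h0, he.eq_iff] using g3 _ ((hva ψ).1 k1) ((hth ψ).1 k2)
    · rwa [hsp, Submodule.map_eq_top_iff] at g4
    · simpa [h4, h0] using g5
    · simpa [h4, h2] using g6

end Transport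

theorem bridge' (k : ℕ) (hk : 2 ≤ k) {V ι : Type} [Fintype V] (G : SimpleGraph V) (s : Finset ι)
    (e : V → ι) (he : Function.Injective e) (hs : ∀ a, a ∈ s ↔ ∃ v, e v = a)
    {E : Type} [AddCommGroup E] [Module ℝ E] [FiniteDimensional ℝ E]
    (hE : Module.finrank ℝ E = k + 1) :
    IsTreetopeGraph k G ↔ ∃ (y : ι → E) (ν : E →ₗ[ℝ] ℝ), Tp s y ν ∧
      ∀ a b, G.Adj a b ↔ Ed s y (e a) (e b) := by
  have hr : finrank ℝ E = finrank ℝ (ℝ × (Fin k → ℝ)) := by simp [hE, add_comm]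
  rw [bridge k hk]
  constructor
  · rintro ⟨p, ν, h, hadj⟩
    let T := LinearEquiv.ofFinrankEq (R := ℝ) E (ℝ × (Fin k → ℝ)) hr
    have hy : ∀ v, ((1 : ℝ), p v) =
        (1 : ℝ) • T (Function.extend e (fun v => T.symm ((1 : ℝ), p v)) 0 (e v)) := fun v => by
      rw [he.extend_apply, T.apply_symm_apply, one_smul]
    exact ⟨_, _, (tp_transport he hs (fun _ => one_pos) hy ν).2 h, fun a b =>
      (hadj a b).trans (ed_transport he hs (fun _ => one_pos) hy a b).symm⟩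
  · rintro ⟨y, ν, h, hadj⟩
    obtain ⟨θ, hθ⟩ := h.pointed
    obtain ⟨a, ha, -⟩ := h.hb
    have h1 : θ ((θ (y a))⁻¹ • y a) = 1 := by simp [(hθ a ha).ne']
    have h2 : finrank ℝ (LinearMap.ker θ) = finrank ℝ (Fin k → ℝ) := by
      have := Module.Dual.finrank_ker_add_one_of_ne_zero (f := θ) (by
        rintro rfl
        simp at h1)
      simp only [finrank_fintype_fun_eq_card, Fintype.card_fin]
      omega
    let j := LinearEquiv.ofFinrankEq (R := ℝ) _ _ h2
    let T := LinearMap.linearEquivOfInjective (θ.prod (j.toLinearMap ∘ₗ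
      (LinearMap.id - θ.smulRight ((θ (y a))⁻¹ • y a)).codRestrict (LinearMap.ker θ)
        fun x => by rw [LinearMap.mem_ker, LinearMap.sub_apply, LinearMap.smulRight_apply, map_sub,
          map_smul, h1]; simp)) ((injective_iff_map_eq_zero _).2 fun x hx => by
        obtain ⟨h3, h4⟩ := Prod.mk.inj hx
        have h5 := congrArg Subtype.val (j.map_eq_zero_iff.1 h4)
        simpa [show θ x = 0 from h3] using h5) hr
    have hT : ∀ x, (T x).1 = θ x := fun _ => rfl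
    have hp := fun v => hθ (e v) ((hs _).2 ⟨v, rfl⟩)
    have hy : ∀ v, ((1 : ℝ), ((θ (y (e v)))⁻¹ • T (y (e v))).2) =
        (θ (y (e v)))⁻¹ • T (y (e v)) := fun v => Prod.ext (by simp [hT, (hp v).ne']) rfl
    refine ⟨_, ν ∘ₗ T.symm.toLinearMap, (tp_transport he hs (fun v => inv_pos.2 (hp v)) hy _).1 ?_,
      fun a b => (hadj a b).trans (ed_transport he hs (fun v => inv_pos.2 (hp v)) hy a b)⟩
    convert h
    ext
    simp

end Pool.Agent.MP_26cd3b_lc.H30
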